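import Mathlib

namespace Pool.Agent.Results.MP_89824e_co.Counter

/-- vertices -/
abbrev V := ZMod 5 × ZMod 2 × ZMod 2

/-- arcs `(i, a, b) → (i + 1, b, c)` -/
def Arc (p q : V) : Prop := q.1 = p.1 + 1 ∧ q.2.1 = p.2.2

/-- `φ` is an isomorphism from the Cayley-coset digraph `D(G, S, H)` onto the digraph `A` -/
def IsPres {W G : Type} [Group G] (A : W → W → Prop) (S : Set G) (H : Subgroup G)
    (φ : G ⧸ H ≃ W) : Prop :=
  Disjoint S H ∧ ∀ g g' : G, A (φ g) (φ g') ↔ ∃ a ∈ H, ∃ s ∈ S, ∃ b ∈ H, g⁻¹ * g' = a * s * b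

def act (t : ZMod 5) (c : ZMod 5 → ZMod 2) (p : V) : V :=
  (p.1 + t, p.2.1 + c p.1, p.2.2 + c (p.1 + 1))

theorem form (σ : V → V) (hi : Function.Injective σ) (h : ∀ p q, Arc p q → Arc (σ p) (σ q)) :
    ∃ t c, σ = act t c := by
  have k : ∀ i a b c, (σ (i + 1, b, c)).1 = (σ (i, a, b)).1 + 1 ∧
      (σ (i + 1, b, c)).2.1 = (σ (i, a, b)).2.2 := fun i a b c => h _ _ ⟨rfl, rfl⟩
  have k' : ∀ i a b c, (σ (i, b, c)).1 = (σ (i - 1, a, b)).1 + 1 ∧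
      (σ (i, b, c)).2.1 = (σ (i - 1, a, b)).2.2 := fun i a b c => by
    simpa using k (i - 1) a b c
  have l : ∀ i a b, (σ (i, a, b)).1 = (σ (i, 0, 0)).1 := by
    intro i a b
    rw [(k' i 0 a b).1, ← (k' i 0 a 0).1]
    exact add_right_cancel ((k i a 0 0).1.symm.trans (k i 0 0 0).1)
  have l2 : ∀ i, (σ (i, 0, 0)).1 = i + (σ (0, 0, 0)).1 := by
    have h1 := (k 0 0 0 0).1
    have h2 := (k (0 + 1) 0 0 0).1
    have h3 := (k (0 + 1 + 1) 0 0 0).1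
    have h4 := (k (0 + 1 + 1 + 1) 0 0 0).1
    have e : ∀ i : ZMod 5, i = 0 ∨ i = 0 + 1 ∨ i = 0 + 1 + 1 ∨ i = 0 + 1 + 1 + 1 ∨
      i = 0 + 1 + 1 + 1 + 1 := by decide
    intro i
    rcases e i with rfl | rfl | rfl | rfl | rfl
    · rw [zero_add]
    all_goals simp only [*]; ring
  have m1 : ∀ i a b, (σ (i, a, b)).2.1 = (σ (i, a, 0)).2.1 := fun i a b => by
    rw [(k' i 0 a b).2, ← (k' i 0 a 0).2]
  have m : ∀ i a, (σ (i, a, 0)).2.1 = a + (σ (i, 0, 0)).2.1 := by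
    intro i a
    have ne : (σ (i, 1, 0)).2.1 ≠ (σ (i, 0, 0)).2.1 := fun e => by
      have := hi (Prod.ext ((l i 1 0).trans (l i 0 0).symm)
        (Prod.ext e ((k i 1 0 0).2.symm.trans (k i 0 0 0).2)))
      simp at this
    have e : ∀ a x y : ZMod 2, x ≠ y → (a = 0 ∧ y = a + y) ∨ (a = 1 ∧ x = a + y) := by decide
    rcases e a _ _ ne with ⟨rfl, g⟩ | ⟨rfl, g⟩ <;> exact g
  refine ⟨(σ (0, 0, 0)).1, fun i => (σ (i, 0, 0)).2.1, funext fun ⟨i, a, b⟩ => ?_⟩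
  exact Prod.ext ((l i a b).trans (l2 i))
    (Prod.ext ((m1 i a b).trans (m i a)) ((k i a b 0).2.symm.trans (m _ _)))

def sh (c : ZMod 5 → ZMod 2) : ZMod 5 → ZMod 2 := fun i => c (i + 1)

def z0 : ZMod 5 → ZMod 2 := fun i => if i = 2 ∨ i = 3 then 1 else 0

theorem code (K : Set (ZMod 5 → ZMod 2)) (ha : ∀ x ∈ K, ∀ y ∈ K, x + y ∈ K)
    (hs : ∀ x ∈ K, sh x ∈ K) (c : ZMod 5 → ZMod 2) (hc : c ∈ K) (h0 : c 0 = 1) (h1 : c 1 = 0) :
    ∃ x ∈ K, ∃ y ∈ K, x ≠ 0 ∧ y ≠ 0 ∧ x ≠ y ∧ x 0 = 0 ∧ x 1 = 0 ∧ y 0 = 0 ∧ y 1 = 0 := by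
  let L : (ZMod 5 → ZMod 2) → List (ZMod 5 → ZMod 2) := fun c =>
    [c, sh c, sh (sh c), sh (sh (sh c)), sh (sh (sh (sh c)))]
  have key : ∀ c : ZMod 5 → ZMod 2, c 0 = 1 → c 1 = 0 → ∃ a ∈ L c, ∃ b ∈ L c, ∃ d ∈ L c,
      a + b + d = z0 ∨ a + b + d + c = z0 := by decide +kernel
  have hL : ∀ a ∈ L c, a ∈ K := by simp [L, hc, hs]
  have : z0 ∈ K := by
    obtain ⟨a, h, b, g, d, f, e | e⟩ := key c h0 h1
    · exact e ▸ ha _ (ha _ (hL a h) _ (hL b g)) _ (hL d f)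
    · exact e ▸ ha _ (ha _ (ha _ (hL a h) _ (hL b g)) _ (hL d f)) _ hc
  exact ⟨_, this, _, hs _ (hs _ (hs _ (hs _ this))), by decide⟩

theorem result : (∀ p, ¬ Arc p p) ∧ (∀ p, {q | Arc p q}.ncard = 2) ∧
    (∀ p q, ∃ σ : V ≃ V, (∀ x y, Arc (σ x) (σ y) ↔ Arc x y) ∧ σ p = q) ∧
    ∀ (G : Type) [Group G] [Finite G] (S : Set G) (H : Subgroup G) (φ : G ⧸ H ≃ V),
      IsPres Arc S H φ → 2 < Nat.card H := by
  refine ⟨by unfold Arc; decide, fun p => Set.ncard_eq_two.2 ⟨(p.1 + 1, p.2.2, 0),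
    (p.1 + 1, p.2.2, 1), by simp, Set.ext ?_⟩, fun p q => ?_, fun G _ _ S H φ h => ?_⟩
  · simp only [Arc, Set.mem_ofPred_eq, Set.mem_insert_iff, Set.mem_singleton_iff]
    revert p
    decide
  · let c : ZMod 5 → ZMod 2 := fun i => if i = p.1 then q.2.1 - p.2.1 else q.2.2 - p.2.2
    have n : p.1 + 1 ≠ p.1 := by generalize p.1 = i; revert i; decide
    have inj : Function.Injective (act (q.1 - p.1) c) := by
      rintro ⟨i, a, b⟩ ⟨j, a', b'⟩ e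
      simp only [act, Prod.mk.injEq, add_left_inj] at e
      obtain ⟨rfl, e⟩ := e
      simpa using e
    refine ⟨Equiv.ofBijective _ (Finite.injective_iff_bijective.1 inj), fun x y => ?_, ?_⟩
    · simp only [Equiv.ofBijective_apply, Arc, act, add_right_comm x.1 _ 1, add_left_inj]
      exact and_congr_right fun e => by rw [e, add_left_inj]
    · simp [act, c, n]
  let ρ : G → V → V := fun g v => φ (g • φ.symm v)
  have mul : ∀ g g' v, ρ (g * g') v = ρ g (ρ g' v) := fun g g' v => by simp [ρ, mul_smul]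
  have one : ∀ v, ρ 1 v = v := fun v => by simp [ρ]
  have hf : ∀ g, ∃ t c, ρ g = act t c := by
    intro g
    refine form _ (fun x y e => by simpa [ρ] using e) fun p q => ?_
    obtain ⟨p, rfl⟩ := φ.surjective p
    obtain ⟨q, rfl⟩ := φ.surjective q
    induction p using QuotientGroup.induction_on
    induction q using QuotientGroup.induction_on
    simp only [ρ, Equiv.symm_apply_apply, MulAction.Quotient.smul_coe, h.2, smul_eq_mul]
    simp [mul_assoc]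
  have tr : ∀ p q, ∃ g, ρ g p = q := by
    intro p q
    obtain ⟨g, e⟩ := MulAction.exists_smul_eq G (φ.symm p) (φ.symm q)
    exact ⟨g, by simp [ρ, e]⟩
  obtain ⟨r, hr⟩ := tr (0, 0, 0) (1, 0, 0)
  obtain ⟨t, d, hd⟩ := hf r
  obtain rfl : t = 1 := by simpa [hd, act] using congrArg Prod.fst hr
  obtain ⟨u, hu⟩ := tr (0, 0, 0) (0, 1, 0)
  obtain ⟨t, c, hc⟩ := hf u
  simp only [hc, act, zero_add, Prod.mk.injEq] at hu
  obtain ⟨rfl, c0, c1⟩ := hu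
  obtain ⟨x, ⟨gx, hx⟩, y, ⟨gy, hy⟩, x0, y0, xy, a1, a2, a3, a4⟩ :=
    code {c | ∃ g, ρ g = act 0 c} (by
      rintro x ⟨g, hx⟩ y ⟨g', hy⟩
      refine ⟨g' * g, funext fun v => ?_⟩
      simp [mul, hx, hy, act, add_assoc]) (by
      rintro x ⟨g, hx⟩
      refine ⟨r⁻¹ * (g * r), funext fun v => ?_⟩
      have : ρ g (ρ r v) = ρ r (act 0 (sh x) v) := by
        simp [hx, hd, act, sh, add_right_comm]
      rw [mul, mul, this, ← mul, inv_mul_cancel, one]) c ⟨u, hc⟩ c0 c1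
  have ai : ∀ x y, act 0 x = act 0 y → x = y := fun x y e => funext fun i => by
    simpa [act] using congrArg (fun f => (f (i, 0, 0)).2.1) e
  have a0 : ρ 1 = act 0 0 := funext fun v => by simp [one, act]
  obtain ⟨w, hw⟩ := QuotientGroup.mk_surjective (φ.symm (0, 0, 0))
  have mem : ∀ g, ρ g (0, 0, 0) = (0, 0, 0) → w⁻¹ * (g * w) ∈ H := by
    intro g e
    rw [← QuotientGroup.eq, hw, ← smul_eq_mul, ← MulAction.Quotient.smul_coe, hw,
      Equiv.symm_apply_eq]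
    exact e.symm
  have := Fintype.ofFinite H
  rw [Nat.card_eq_fintype_card, Fintype.two_lt_card_iff]
  refine ⟨⟨_, mem 1 (one _)⟩, ⟨_, mem gx (by simp [hx, act, a1, a2])⟩,
    ⟨_, mem gy (by simp [hy, act, a3, a4])⟩, ?_, ?_, ?_⟩ <;>
    simp only [ne_eq, Subtype.mk.injEq, mul_right_inj, mul_left_inj] <;> rintro rfl
  · exact x0 (ai _ _ (hx.symm.trans a0))
  · exact y0 (ai _ _ (hy.symm.trans a0))
  · exact xy (ai _ _ (hx.symm.trans hy))

end Pool.Agent.Results.MP_89824e_co.Counter
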